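import Pool.Agent.Q136.KRK.Mate39
import Pool.Agent.Q136.KRK.Strip
import Pool.Agent.Q136.KRK.Ten

/-!
# King and rook against king on boards with a corner

White king a1, White rook b2, Black king c3, White to move; the Black king may leave the board
across the north edge or the east edge (if the board has them), which wins for Black.

On the board with `m` files and `n` ranks White can force checkmate if and only if
`m ≥ 9, n ≥ 11` or `m ≥ 11, n ≥ 9`; in these cases 39 moves suffice. So the smallest boards are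
`9 × 11` and `11 × 9`. On the quarter-infinite board White can force checkmate within 39 moves.
-/

namespace Pool.Agent.Results.MP_b88367_co.KingAndRookOnCornerBoards

open Pool.Agent.Q136.KRK

theorem winsIn_all {B : Board} (h : (9 ≤ B.files ∧ 11 ≤ B.ranks) ∨ (11 ≤ B.files ∧ 9 ≤ B.ranks)) :
    WinsIn B 39 start := by
  rcases h with ⟨h1, h2⟩ | ⟨h1, h2⟩
  · exact WinsIn.board_mono (B := ⟨9, 11⟩) h1 h2 winsIn_911
  · have h3 : WinsIn ⟨11, 9⟩ 39 start := WinsIn.flip winsIn_911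
    exact WinsIn.board_mono (B := ⟨11, 9⟩) h1 h2 h3

theorem Wins.board_mono {B B' : Board} (hf : B.files ≤ B'.files) (hr : B.ranks ≤ B'.ranks)
    {p : Pos} (h : Wins B p) : Wins B' p := by
  obtain ⟨N, hN⟩ := winsIn_of_wins h
  exact wins_of_winsIn (hN.board_mono hf hr)

theorem not_wins_files {B : Board} (h : B.files ≤ 8) : ¬ Wins B start := by
  intro hw
  exact not_wins_strip (Wins.board_mono (B' := ⟨8, ⊤⟩) h le_top hw)

theorem not_wins_ranks {B : Board} (h : B.ranks ≤ 8) : ¬ Wins B start := by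
  intro hw
  obtain ⟨N, hN⟩ := winsIn_of_wins hw
  have h1 : WinsIn B.flip N start := WinsIn.flip hN
  exact not_wins_files (B := B.flip) h (wins_of_winsIn h1)

theorem not_wins_small {B : Board} (h1 : B.files ≤ 10) (h2 : B.ranks ≤ 10) : ¬ Wins B start :=
  fun hw => not_wins_ten (Wins.board_mono (B' := ⟨10, 10⟩) h1 h2 hw)

theorem not_wins_iff {B : Board} {p : Pos} : ¬ Wins B p ↔
    ∃ I : Set Pos, p ∈ I ∧ ∀ p ∈ I, ∀ q, WMove B p q → ¬ Mate B q ∧
      ((¬ ∃ s, BMove B q s) ∨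
        ∃ s, BMove B q s ∧ (¬ B.On s ∨ s = q.wr ∨ (⟨q.wk, q.wr, s⟩ : Pos) ∈ I)) := by
  constructor
  · intro h
    refine ⟨{p | ¬ Wins B p}, h, fun p hp q hq => ⟨fun hm => hp (Wins.mate hq hm), ?_⟩⟩
    by_contra hc
    push Not at hc
    obtain ⟨hc1, hc2⟩ := hc
    exact hp (Wins.step hq hc1 (fun s hs => ⟨(hc2 s hs).1, (hc2 s hs).2.1⟩)
      (fun s hs => not_not.1 (hc2 s hs).2.2))
  · rintro ⟨I, hp, hI⟩ hw
    induction hw with
    | mate h1 h2 => exact (hI _ hp _ h1).1 h2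
    | step h1 h2 h3 _ ih =>
        rcases (hI _ hp _ h1).2 with k | ⟨s, hs, k | k | k⟩
        · exact k h2
        · exact k (h3 s hs).1
        · exact (h3 s hs).2 k
        · exact ih s hs k

theorem result :
    -- Q2: the boards with `m` files and `n` ranks on which White can force checkmate
    (∀ m n : ℕ, 3 ≤ m → 3 ≤ n →
      (Wins ⟨m, n⟩ start ↔ (9 ≤ m ∧ 11 ≤ n) ∨ (11 ≤ m ∧ 9 ≤ n))) ∧
    -- in these cases 39 moves suffice
    (∀ m n : ℕ, (9 ≤ m ∧ 11 ≤ n) ∨ (11 ≤ m ∧ 9 ≤ n) → WinsIn ⟨m, n⟩ 39 start) ∧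
    -- Q1: on the quarter-infinite board White can force checkmate, within 39 moves
    WinsIn ⟨⊤, ⊤⟩ 39 start ∧
    -- the board with 8 files and infinitely many ranks is too narrow
    ¬ Wins ⟨8, ⊤⟩ start ∧
    -- the two notions of a forced checkmate agree, and its failure is a strategy of Black
    (∀ (B : Board) (p : Pos), Wins B p ↔ ∃ N, WinsIn B N p) ∧
    (∀ (B : Board) (p : Pos), ¬ Wins B p ↔
      ∃ I : Set Pos, p ∈ I ∧ ∀ p ∈ I, ∀ q, WMove B p q → ¬ Mate B q ∧
        ((¬ ∃ s, BMove B q s) ∨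
          ∃ s, BMove B q s ∧ (¬ B.On s ∨ s = q.wr ∨ (⟨q.wk, q.wr, s⟩ : Pos) ∈ I))) := by
  refine ⟨fun m n _ _ => ⟨fun hw => ?_, fun h => ?_⟩, fun m n h => ?_, ?_, not_wins_strip,
    fun B p => wins_iff, fun B p => not_wins_iff⟩
  · by_contra hc
    by_cases h1 : m ≤ 8
    · exact not_wins_files (B := ⟨m, n⟩) (by simpa using (by exact_mod_cast h1 : (m : ℕ∞) ≤ 8)) hw
    by_cases h2 : n ≤ 8
    · exact not_wins_ranks (B := ⟨m, n⟩) (by simpa using (by exact_mod_cast h2 : (n : ℕ∞) ≤ 8)) hw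
    have h3 : m ≤ 10 := by omega
    have h4 : n ≤ 10 := by omega
    exact not_wins_small (B := ⟨m, n⟩) (by simpa using (by exact_mod_cast h3 : (m : ℕ∞) ≤ 10))
      (by simpa using (by exact_mod_cast h4 : (n : ℕ∞) ≤ 10)) hw
  · exact wins_of_winsIn (winsIn_all (B := ⟨m, n⟩) (by simp only; exact_mod_cast h))
  · exact winsIn_all (B := ⟨m, n⟩) (by simp only; exact_mod_cast h)
  · exact winsIn_all (B := ⟨⊤, ⊤⟩) (Or.inl ⟨le_top, le_top⟩)

end Pool.Agent.Results.MP_b88367_co.KingAndRookOnCornerBoards
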